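import Pool.Agent.GTO.Defs
import Pool.Agent.Helper96_ABCT.Farkas

/-!
Squad GTO: walls of a tope generate (FAR).
-/

set_option autoImplicit false

namespace Pool.Agent.GTO.H56

open Finset Pool.Agent.GTO
open scoped Classical

theorem ip_add (u v x : V) : ip (u + v) x = ip u x + ip v x := by
  simp [ip]; ring

theorem ip_smul (c : ℝ) (u x : V) : ip (c • u) x = c * ip u x := by
  simp [ip]; ring

theorem ip_sum {ι : Type} (S : Finset ι) (c : ι → ℝ) (b : ι → V) (x : V) :
    ip (∑ i ∈ S, c i • b i) x = ∑ i ∈ S, c i * ip (b i) x := by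
  induction S using Finset.induction_on with
  | empty => simp [ip]
  | insert i S hi ih => rw [Finset.sum_insert hi, Finset.sum_insert hi, ip_add, ip_smul, ih]

theorem ip_comm (u v : V) : ip u v = ip v u := by simp [ip]; ring

theorem ip_add_right (u x y : V) : ip u (x + y) = ip u x + ip u y := by
  simp [ip]; ring

theorem ip_smul_right (c : ℝ) (u x : V) : ip u (c • x) = c * ip u x := by
  simp [ip]; ring

theorem cr_smul_self (c : ℝ) (u : V) : cr (c • u) u = 0 := by
  funext i
  fin_cases i <;> simp [cr] <;> ring

theorem far {ι : Type} [Fintype ι] (b : ι → V) (hx : ∃ x, ∀ i, 0 < ip (b i) x)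
    (hp : ∀ i j, i ≠ j → cr (b i) (b j) ≠ 0) :
    ∃ W : Finset ι, (∀ w ∈ W, ∃ x, ip (b w) x < 0 ∧ ∀ l, l ≠ w → 0 < ip (b l) x) ∧
      ∀ l, ∃ e : ι → ℝ, (∀ w, 0 ≤ e w) ∧ b l = ∑ w ∈ W, e w • b w := by
  obtain ⟨x, hx⟩ := hx
  set P : Finset ι → Prop := fun W => ∀ l, ∃ e : ι → ℝ, (∀ w, 0 ≤ e w) ∧ b l = ∑ w ∈ W, e w • b w
    with hP
  have hPu : P univ := fun l => ⟨fun i => if i = l then 1 else 0,
    fun w => by dsimp only; split_ifs <;> norm_num, by simp⟩
  obtain ⟨W, hW, hmin⟩ := Finset.exists_min_image ((univ : Finset (Finset ι)).filter P)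
    (fun W => W.card) ⟨univ, by simp [hPu]⟩
  rw [mem_filter] at hW
  have hPW := hW.2
  refine ⟨W, fun w hw => ?_, hPW⟩
  -- `b w` is not in the cone of the others
  have hnot : b w ∉ ABCT.H96.cone b (univ.erase w) := by
    rintro ⟨c, hc, hbw⟩
    choose e he0 he using hPW
    set E : ι → ℝ := fun v => ∑ l ∈ univ.erase w, c l * e l v with hE
    have hE0 : ∀ v, 0 ≤ E v := fun v => sum_nonneg fun l hl => mul_nonneg (hc l hl) (he0 l v)
    have hbE : b w = ∑ v ∈ W, E v • b v := by
      calc b w = ∑ l ∈ univ.erase w, c l • ∑ v ∈ W, e l v • b v := by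
            conv_lhs => rw [hbw]
            apply sum_congr rfl
            intro l _
            rw [← he l]
        _ = ∑ l ∈ univ.erase w, ∑ v ∈ W, (c l * e l v) • b v := by
            apply sum_congr rfl
            intro l _
            rw [smul_sum]
            apply sum_congr rfl
            intro v _
            rw [mul_smul]
        _ = ∑ v ∈ W, E v • b v := by
            rw [sum_comm]
            apply sum_congr rfl
            intro v _
            rw [hE, sum_smul]
    rcases lt_or_ge (E w) 1 with h1 | h1
    · -- `W` is not minimal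
      have h2 : b w = ∑ v ∈ W.erase w, (E v / (1 - E w)) • b v := by
        have h3 : b w = E w • b w + ∑ v ∈ W.erase w, E v • b v := by
          conv_lhs => rw [hbE]
          rw [← add_sum_erase W _ hw]
        have h4 : (1 - E w) • b w = ∑ v ∈ W.erase w, E v • b v := by
          rw [sub_smul, one_smul]
          exact sub_eq_of_eq_add' h3
        have h5 : (1 - E w) ≠ 0 := by linarith
        calc b w = (1 - E w)⁻¹ • ((1 - E w) • b w) := by
              rw [smul_smul, inv_mul_cancel₀ h5, one_smul]
          _ = _ := by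
              rw [h4, smul_sum]
              apply sum_congr rfl
              intro v _
              rw [smul_smul, div_eq_inv_mul]
      have hPe : P (W.erase w) := by
        intro l
        refine ⟨fun v => e l w * (E v / (1 - E w)) + e l v, fun v => ?_, ?_⟩
        · have h6 : 0 ≤ E v / (1 - E w) := div_nonneg (hE0 v) (by linarith)
          have := mul_nonneg (he0 l w) h6
          have := he0 l v
          linarith
        · have h7 : b l = e l w • b w + ∑ v ∈ W.erase w, e l v • b v := by
            conv_lhs => rw [he l]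
            rw [← add_sum_erase W _ hw]
          conv_lhs => rw [h7, h2, smul_sum, ← sum_add_distrib]
          apply sum_congr rfl
          intro v _
          rw [add_smul, mul_smul]
      have h8 := hmin (W.erase w) (by simp [hPe])
      have h9 := card_erase_lt_of_mem hw
      omega
    · -- a parallel vector
      have h3 : ip (b w) x = E w * ip (b w) x + ∑ v ∈ W.erase w, E v * ip (b v) x := by
        conv_lhs => rw [hbE, ip_sum]
        rw [← add_sum_erase W _ hw]
      have h4 : ∀ v ∈ W.erase w, E v = 0 := by
        have h5 : ∑ v ∈ W.erase w, E v * ip (b v) x ≤ 0 := by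
          nlinarith [hx w]
        have h6 : ∀ v ∈ W.erase w, 0 ≤ E v * ip (b v) x := fun v _ =>
          mul_nonneg (hE0 v) (hx v).le
        have h7 : ∑ v ∈ W.erase w, E v * ip (b v) x = 0 := le_antisymm h5 (sum_nonneg h6)
        intro v hv
        have h8 := (sum_eq_zero_iff_of_nonneg h6).mp h7 v hv
        rcases mul_eq_zero.mp h8 with h | h
        · exact h
        · exact absurd h (hx v).ne'
      have h5 : ∃ l ∈ univ.erase w, 0 < c l * e l w := by
        by_contra hcon
        push Not at hcon
        have : E w ≤ 0 := sum_nonpos hcon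
        linarith
      obtain ⟨l, hl, hcl⟩ := h5
      have hcl0 : 0 < c l := by
        rcases (hc l hl).lt_or_eq with h | h
        · exact h
        · rw [← h, zero_mul] at hcl; exact absurd hcl (lt_irrefl _)
      have h6 : ∀ v ∈ W.erase w, e l v = 0 := by
        intro v hv
        have h7 : c l * e l v ≤ E v :=
          single_le_sum (f := fun l => c l * e l v)
            (fun l hl => mul_nonneg (hc l hl) (he0 l v)) hl
        rw [h4 v hv] at h7
        have h8 : 0 ≤ c l * e l v := mul_nonneg hcl0.le (he0 l v)
        have h9 : c l * e l v = 0 := le_antisymm h7 h8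
        rcases mul_eq_zero.mp h9 with h | h
        · exact absurd h hcl0.ne'
        · exact h
      have h7 : b l = e l w • b w := by
        conv_lhs => rw [he l]
        rw [← add_sum_erase W _ hw, sum_eq_zero (s := W.erase w) (fun v hv => by
          rw [h6 v hv, zero_smul]), add_zero]
      apply hp l w (ne_of_mem_erase hl)
      rw [h7]
      exact cr_smul_self _ _
  obtain ⟨f, hf, hfw⟩ := ABCT.H96.farkas b (univ.erase w) (b w) hnot
  -- the functional as an inner product
  obtain ⟨x0, hx0⟩ : ∃ x0 : V, ∀ u : V, f u = ip u x0 := by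
    refine ⟨fun i => f (Pi.single i 1), fun u => ?_⟩
    have h1 : u = ∑ i : Fin 3, u i • (Pi.single i 1 : V) := by
      funext j
      simp [Pi.single_apply]
    conv_lhs => rw [h1, map_sum]
    rw [Fin.sum_univ_three]
    simp only [map_smul, smul_eq_mul, ip]
  rw [hx0] at hfw
  have hf' : ∀ l, l ≠ w → 0 ≤ ip (b l) x0 := fun l hl => by
    rw [← hx0]; exact hf l (mem_erase.mpr ⟨hl, mem_univ _⟩)
  -- perturb
  set ε : ℝ := -(ip (b w) x0) / (2 * ip (b w) x) with hε
  have hε0 : 0 < ε := div_pos (by linarith) (by linarith [hx w])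
  refine ⟨x0 + ε • x, ?_, fun l hl => ?_⟩
  · rw [ip_add_right, ip_smul_right]
    have h1 : ε * ip (b w) x = -(ip (b w) x0) / 2 := by
      rw [hε]
      have := (hx w).ne'
      field_simp
    rw [h1]
    linarith
  · rw [ip_add_right, ip_smul_right]
    have h1 := hf' l hl
    have h2 : 0 < ε * ip (b l) x := mul_pos hε0 (hx l)
    linarith

end Pool.Agent.GTO.H56
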