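import Pool.Agent.GTO.StmtsA
import Pool.Agent.Helper56_GTO.FAR

/-!
Squad GTO, row FAR: walls of a tope generate.
-/

set_option autoImplicit false

namespace Pool.Agent.GTO.H56

open Finset Pool.Agent.GTO
open scoped Classical

theorem sg_ne (b : Bool) : sg b ≠ 0 := by
  cases b <;> simp [sg]

theorem sg_not (b : Bool) : sg (!b) = - sg b := by
  cases b <;> simp [sg]

theorem cr_bv {ι : Type} (a : ι → V) (σ : ι → Bool) (i j : ι) :
    cr (bv a σ i) (bv a σ j) = (sg (σ i) * sg (σ j)) • cr (a i) (a j) := by
  funext k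
  fin_cases k <;> simp [cr, bv] <;> ring

theorem bv_flp_self {ι : Type} (a : ι → V) (σ : ι → Bool) (i : ι) :
    bv a (flp σ i) i = - bv a σ i := by
  simp only [bv, flp, Function.update_self, sg_not, neg_smul]

theorem bv_flp_ne {ι : Type} (a : ι → V) (σ : ι → Bool) {i j : ι} (h : j ≠ i) :
    bv a (flp σ i) j = bv a σ j := by
  simp only [bv, flp, Function.update_of_ne h]

theorem ip_neg (u x : V) : ip (-u) x = - ip u x := by
  simp [ip]; ring

/-- FAR -/
theorem farS : FarStmt := by
  intro ι _ a hPI hn σ hσ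
  obtain ⟨W, hW, hgen⟩ := far (fun l => bv a σ l) hσ (by
    intro i j hij
    rw [cr_bv]
    exact smul_ne_zero (mul_ne_zero (sg_ne _) (sg_ne _)) (hPI i j hij))
  refine ⟨W, ?_, ?_⟩
  · intro w hw
    obtain ⟨x, hx, hl⟩ := hW w hw
    rw [walls, mem_filter]
    refine ⟨mem_univ _, x, fun i => ?_⟩
    by_cases hi : i = w
    · subst hi
      rw [bv_flp_self, ip_neg]
      linarith
    · rw [bv_flp_ne a σ hi]
      exact hl i hi
  · intro l
    obtain ⟨e, he, hel⟩ := hgen l
    refine ⟨fun w => if w ∈ W then e w else 0, fun w => ?_, fun w hw => ?_, ?_⟩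
    · dsimp only
      split_ifs
      · exact he w
      · exact le_refl _
    · dsimp only
      rw [if_neg hw]
    · have h1 : ∑ w, (if w ∈ W then e w else 0) • bv a σ w = ∑ w ∈ W, e w • bv a σ w := by
        rw [← Finset.sum_subset (Finset.subset_univ W)]
        · apply Finset.sum_congr rfl
          intro w hw
          rw [if_pos hw]
        · intro w _ hw
          rw [if_neg hw, zero_smul]
      rw [h1]
      exact hel

end Pool.Agent.GTO.H56
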