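import Pool.Agent.GTO.StmtsA
import Pool.Agent.Helper56_GTO.FarS

/-!
Squad GTO, row DEL: deletion of one functional.
-/

set_option autoImplicit false

namespace Pool.Agent.GTO.H56

open Finset Pool.Agent.GTO
open scoped Classical Topology

/-- perturbation of a witness -/
theorem perturb {ι : Type} (b : ι → V) (s : Finset ι) (z y : V) (hz : ∀ i ∈ s, 0 < ip (b i) z) :
    ∃ ε : ℝ, 0 < ε ∧ ∀ t : ℝ, |t| < ε → ∀ i ∈ s, 0 < ip (b i) (z + t • y) := by
  have h1 : ∀ᶠ t in 𝓝 (0 : ℝ), ∀ i ∈ s, 0 < ip (b i) (z + t • y) := by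
    rw [Filter.eventually_all_finset]
    intro i hi
    have h2 : Continuous fun t : ℝ => ip (b i) z + t * ip (b i) y := by fun_prop
    have h3 : (fun t : ℝ => ip (b i) (z + t • y)) = fun t : ℝ => ip (b i) z + t * ip (b i) y := by
      funext t
      rw [ip_add_right, ip_smul_right]
    have h4 := h2.tendsto 0
    rw [← h3] at h4
    have h5 : 0 < ip (b i) z + 0 * ip (b i) y := by
      rw [zero_mul, add_zero]
      exact hz i hi
    exact h4.eventually (lt_mem_nhds h5)
  rw [Metric.eventually_nhds_iff] at h1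
  obtain ⟨ε, hε, h⟩ := h1
  refine ⟨ε, hε, fun t ht => h ?_⟩
  rw [Real.dist_eq, sub_zero]
  exact ht

/-- DEL -/
theorem del : DelStmt := by
  intro ι _ a K s j hj hx
  obtain ⟨y, hyK, hy⟩ := hx
  -- the two parts
  obtain ⟨A, hA⟩ : ∃ A, A = SV a K (insert j s) := ⟨_, rfl⟩
  obtain ⟨T, hT⟩ : ∃ T : Finset (ι → Bool),
    T = (A.filter fun σ => σ j = true).image fun σ => Function.update σ j false := ⟨_, rfl⟩
  obtain ⟨F, hFd⟩ : ∃ F : Finset (ι → Bool), F = A.filter fun σ => ¬ σ j = true := ⟨_, rfl⟩
  have hcardT : T.card = (A.filter fun σ => σ j = true).card := by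
    rw [hT]
    apply Finset.card_image_of_injOn
    intro σ hσ τ hτ h
    have h1 := (mem_filter.1 (Finset.mem_coe.1 hσ)).2
    have h2 := (mem_filter.1 (Finset.mem_coe.1 hτ)).2
    funext i
    by_cases hi : i = j
    · rw [hi, h1, h2]
    · have h3 := congrFun h i
      simpa only [Function.update_of_ne hi] using h3
  have hcardA : A.card = T.card + F.card := by
    rw [hcardT, hFd, Finset.card_filter_add_card_filter_not]
  have hmemA : ∀ σ, σ ∈ A ↔ (∀ i, i ∉ insert j s → σ i = false) ∧
      ∃ x ∈ K, ∀ i ∈ insert j s, 0 < ip (bv a σ i) x := by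
    intro σ
    rw [hA, SV, mem_filter]
    exact and_iff_right (mem_univ _)
  have hmemS : ∀ (L : Submodule ℝ V) (σ), σ ∈ SV a L s ↔ (∀ i, i ∉ s → σ i = false) ∧
      ∃ x ∈ L, ∀ i ∈ s, 0 < ip (bv a σ i) x := by
    intro L σ
    rw [SV, mem_filter]
    exact and_iff_right (mem_univ _)
  have hne : ∀ i ∈ s, i ≠ j := by
    rintro i hi rfl
    exact hj hi
  have hbv : ∀ (σ : ι → Bool) (c : Bool), ∀ i ∈ s, bv a (Function.update σ j c) i = bv a σ i := by
    intro σ c i hi
    simp only [bv, Function.update_of_ne (hne i hi)]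
  -- description of `F` and `T`
  have hF : ∀ σ, σ ∈ F ↔ (∀ i, i ∉ s → σ i = false) ∧
      ∃ x ∈ K, ip (a j) x < 0 ∧ ∀ i ∈ s, 0 < ip (bv a σ i) x := by
    intro σ
    rw [hFd, mem_filter, hmemA]
    constructor
    · rintro ⟨⟨h1, x, hxK, h2⟩, h3⟩
      have h3' : σ j = false := by simpa using h3
      refine ⟨fun i hi => ?_, x, hxK, ?_, fun i hi => h2 i (mem_insert_of_mem hi)⟩
      · by_cases hij : i = j
        · rw [hij, h3']
        · exact h1 i (by simp [hij, hi])
      · have h4 := h2 j (mem_insert_self _ _)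
        rw [bv, h3', ip_smul] at h4
        simp only [sg] at h4
        norm_num at h4
        exact h4
    · rintro ⟨h1, x, hxK, h2, h3⟩
      refine ⟨⟨fun i hi => h1 i (fun h => hi (mem_insert_of_mem h)), x, hxK, fun i hi => ?_⟩, ?_⟩
      · rcases mem_insert.1 hi with rfl | hi
        · rw [bv, h1 i hj, ip_smul]
          simp only [sg]
          norm_num
          exact h2
        · exact h3 i hi
      · rw [h1 j hj]
        simp
  have hTm : ∀ σ, σ ∈ T ↔ (∀ i, i ∉ s → σ i = false) ∧
      ∃ x ∈ K, 0 < ip (a j) x ∧ ∀ i ∈ s, 0 < ip (bv a σ i) x := by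
    intro σ
    rw [hT, mem_image]
    constructor
    · rintro ⟨τ, hτ, rfl⟩
      rw [mem_filter, hmemA] at hτ
      obtain ⟨⟨h1, x, hxK, h2⟩, h3⟩ := hτ
      refine ⟨fun i hi => ?_, x, hxK, ?_, fun i hi => ?_⟩
      · by_cases hij : i = j
        · rw [hij, Function.update_self]
        · rw [Function.update_of_ne hij]
          exact h1 i (by simp [hij, hi])
      · have h4 := h2 j (mem_insert_self _ _)
        rw [bv, h3, ip_smul] at h4
        simp only [sg] at h4
        norm_num at h4
        exact h4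
      · rw [hbv τ false i hi]
        exact h2 i (mem_insert_of_mem hi)
    · rintro ⟨h1, x, hxK, h2, h3⟩
      refine ⟨Function.update σ j true, ?_, ?_⟩
      · rw [mem_filter, hmemA]
        refine ⟨⟨fun i hi => ?_, x, hxK, fun i hi => ?_⟩, Function.update_self _ _ _⟩
        · rw [mem_insert, not_or] at hi
          rw [Function.update_of_ne hi.1]
          exact h1 i hi.2
        · rcases mem_insert.1 hi with rfl | hi
          · rw [bv, Function.update_self, ip_smul]
            simp only [sg]
            norm_num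
            exact h2
          · rw [hbv σ true i hi]
            exact h3 i hi
      · rw [Function.update_idem]
        funext i
        by_cases hij : i = j
        · rw [hij, Function.update_self, h1 j hj]
        · rw [Function.update_of_ne hij]
  have hunion : T ∪ F = SV a K s := by
    ext σ
    rw [mem_union, hF, hTm, hmemS]
    constructor
    · rintro (⟨h1, x, hxK, -, h3⟩ | ⟨h1, x, hxK, -, h3⟩)
      · exact ⟨h1, x, hxK, h3⟩
      · exact ⟨h1, x, hxK, h3⟩
    · rintro ⟨h1, x, hxK, h3⟩
      rcases lt_trichotomy (ip (a j) x) 0 with h | h | h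
      · exact Or.inr ⟨h1, x, hxK, h, h3⟩
      · obtain ⟨ε, hε, hpt⟩ := perturb (fun i => bv a σ i) s x y h3
        rcases lt_or_gt_of_ne hy with hy0 | hy0
        · left
          refine ⟨h1, x + (-(ε / 2)) • y, K.add_mem hxK (K.smul_mem _ hyK), ?_, ?_⟩
          · rw [ip_add_right, ip_smul_right, h]
            nlinarith
          · apply hpt
            rw [abs_neg, abs_of_pos (by linarith)]
            linarith
        · left
          refine ⟨h1, x + (ε / 2) • y, K.add_mem hxK (K.smul_mem _ hyK), ?_, ?_⟩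
          · rw [ip_add_right, ip_smul_right, h]
            nlinarith
          · apply hpt
            rw [abs_of_pos (by linarith)]
            linarith
      · exact Or.inl ⟨h1, x, hxK, h, h3⟩
  have hinter : T ∩ F = SV a (K ⊓ perp (a j)) s := by
    ext σ
    rw [mem_inter, hF, hTm, hmemS]
    constructor
    · rintro ⟨⟨h1, x, hxK, h2, h3⟩, -, x', hxK', h2', h3'⟩
      refine ⟨h1, ip (a j) x • x' + (- ip (a j) x') • x, ⟨K.add_mem (K.smul_mem _ hxK')
        (K.smul_mem _ hxK), ?_⟩, fun i hi => ?_⟩
      · change ip (a j) _ = 0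
        rw [ip_add_right, ip_smul_right, ip_smul_right]
        ring
      · rw [ip_add_right, ip_smul_right, ip_smul_right]
        have e1 := h3 i hi
        have e2 := h3' i hi
        have e3 : 0 < ip (a j) x * ip (bv a σ i) x' := mul_pos h2 e2
        have e4 : 0 < - ip (a j) x' * ip (bv a σ i) x := mul_pos (by linarith) e1
        linarith
    · rintro ⟨h1, x, ⟨hxK, hx0⟩, h3⟩
      have hx0' : ip (a j) x = 0 := hx0
      obtain ⟨ε, hε, hpt⟩ := perturb (fun i => bv a σ i) s x y h3
      have g1 := hpt (ε / 2) (by rw [abs_of_pos (by linarith)]; linarith)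
      have g2 := hpt (-(ε / 2)) (by rw [abs_neg, abs_of_pos (by linarith)]; linarith)
      have k1 : x + (ε / 2) • y ∈ K := K.add_mem hxK (K.smul_mem _ hyK)
      have k2 : x + (-(ε / 2)) • y ∈ K := K.add_mem hxK (K.smul_mem _ hyK)
      have e1 : ip (a j) (x + (ε / 2) • y) = ε / 2 * ip (a j) y := by
        rw [ip_add_right, ip_smul_right, hx0', zero_add]
      have e2 : ip (a j) (x + (-(ε / 2)) • y) = -(ε / 2) * ip (a j) y := by
        rw [ip_add_right, ip_smul_right, hx0', zero_add]
      rcases lt_or_gt_of_ne hy with hy0 | hy0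
      · refine ⟨⟨h1, _, k2, ?_, g2⟩, h1, _, k1, ?_, g1⟩
        · rw [e2]; nlinarith
        · rw [e1]; nlinarith
      · refine ⟨⟨h1, _, k1, ?_, g1⟩, h1, _, k2, ?_, g2⟩
        · rw [e1]; nlinarith
        · rw [e2]; nlinarith
  rw [← hA, hcardA, ← hunion, ← hinter, Finset.card_union_add_card_inter]

end Pool.Agent.GTO.H56
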