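import Pool.Agent.GTO.StmtsA
import Pool.Agent.Helper56_GTO.DEL

/-!
Squad GTO, row TOT: the number of topes.
-/

set_option autoImplicit false

namespace Pool.Agent.GTO.H56

open Finset Pool.Agent.GTO
open scoped Classical

theorem ip_self_pos {u : V} (h : u ≠ 0) : 0 < ip u u := by
  have h1 : ∃ i, u i ≠ 0 := by
    by_contra hcon
    push Not at hcon
    exact h (funext hcon)
  obtain ⟨i, hi⟩ := h1
  have h2 := mul_self_nonneg (u 0)
  have h3 := mul_self_nonneg (u 1)
  have h4 := mul_self_nonneg (u 2)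
  have h5 : 0 < u i * u i := mul_self_pos.2 hi
  unfold ip
  fin_cases i
  · change 0 < u 0 * u 0 at h5
    linarith
  · change 0 < u 1 * u 1 at h5
    linarith
  · change 0 < u 2 * u 2 at h5
    linarith

theorem ne_zero_of_PI {ι : Type} [Fintype ι] {a : ι → V} (h : PI a) (hn : 2 ≤ Fintype.card ι)
    (i : ι) : a i ≠ 0 := by
  intro h0
  obtain ⟨j, hj⟩ := Fintype.exists_ne_of_one_lt_card (show 1 < Fintype.card ι by omega) i
  apply h i j hj.symm
  rw [h0]
  funext k
  fin_cases k <;> simp [cr]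

theorem card_SV_empty {ι : Type} [Fintype ι] (a : ι → V) (K : Submodule ℝ V) :
    (SV a K ∅).card = 1 := by
  rw [Finset.card_eq_one]
  refine ⟨fun _ => false, ?_⟩
  ext σ
  rw [SV, mem_filter, mem_singleton]
  constructor
  · rintro ⟨-, h, -⟩
    funext i
    exact h i (notMem_empty i)
  · rintro rfl
    exact ⟨mem_univ _, fun _ _ => rfl, 0, K.zero_mem, fun i hi => absurd hi (notMem_empty i)⟩

/-- the combinatorial step -/
theorem step_sum {ι : Type} [Fintype ι] (a : ι → V) (bas : BasStmt) (hPI : PI a) (s : Finset ι)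
    (i : ι) (hi : i ∉ s) :
    ∑ ℓ ∈ lns a, ((ℓ ∩ insert i s).card - 1) =
      ∑ ℓ ∈ lns a, ((ℓ ∩ s).card - 1) + (s.image fun j => ln a i j).card := by
  obtain ⟨b1, b2, -⟩ := bas.2.2.2.2.2 ι a hPI
  have h1 : (s.image fun j => ln a i j) = (lns a).filter fun ℓ => i ∈ ℓ ∧ (ℓ ∩ s).Nonempty := by
    ext ℓ
    rw [mem_image, mem_filter]
    constructor
    · rintro ⟨j, hj, rfl⟩
      have hij : i ≠ j := by
        rintro rfl
        exact hi hj
      refine ⟨?_, (b2 i j hij).1, j, mem_inter.2 ⟨(b2 i j hij).2, hj⟩⟩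
      rw [lns, mem_image]
      exact ⟨(i, j), mem_filter.2 ⟨mem_univ _, hij⟩, rfl⟩
    · rintro ⟨hℓ, hiℓ, j, hj⟩
      rw [mem_inter] at hj
      rw [lns, mem_image] at hℓ
      obtain ⟨⟨k, l⟩, hkl, rfl⟩ := hℓ
      have hkl' : k ≠ l := (mem_filter.1 hkl).2
      have hij : i ≠ j := by
        rintro rfl
        exact hi hj.2
      exact ⟨j, hj.2, b1 k l i j hkl' hij hiℓ hj.1⟩
  rw [h1, Finset.card_filter, ← Finset.sum_add_distrib]
  apply Finset.sum_congr rfl
  intro ℓ _
  by_cases hiℓ : i ∈ ℓ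
  · rw [Finset.inter_insert_of_mem hiℓ, Finset.card_insert_of_notMem
      (fun h => hi (mem_inter.1 h).2)]
    by_cases hne : (ℓ ∩ s).Nonempty
    · rw [if_pos ⟨hiℓ, hne⟩]
      have := hne.card_pos
      omega
    · rw [if_neg (fun h => hne h.2)]
      rw [Finset.not_nonempty_iff_eq_empty] at hne
      rw [hne, Finset.card_empty]
  · rw [Finset.inter_insert_of_notMem hiℓ, if_neg (fun h => hiℓ h.1), add_zero]

/-- TOT -/
theorem tot (bas : BasStmt) (cir : CirStmt) : TotStmt := by
  intro ι _ a hPI hn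
  have key : ∀ s : Finset ι, s.Nonempty →
      (SV a ⊤ s).card = 2 + 2 * ∑ ℓ ∈ lns a, ((ℓ ∩ s).card - 1) := by
    intro s hs
    induction s using Finset.induction_on with
    | empty => exact absurd hs Finset.not_nonempty_empty
    | insert i s hi ih =>
      have h1 := del ι a ⊤ s i hi ⟨a i, Submodule.mem_top,
        (ip_self_pos (ne_zero_of_PI hPI hn i)).ne'⟩
      rw [top_inf_eq] at h1
      rw [h1, step_sum a bas hPI s i hi]
      rcases s.eq_empty_or_nonempty with rfl | hne
      · rw [card_SV_empty, card_SV_empty]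
        simp
      · rw [ih hne, (cir ι a hPI hn).1 i s hi hne]
        ring
  have h2 : topes a = SV a ⊤ univ := by
    ext σ
    rw [topes, SV, mem_filter, mem_filter]
    constructor
    · rintro ⟨h, x, hx⟩
      exact ⟨h, fun i hi => absurd (mem_univ i) hi, x, Submodule.mem_top, fun i _ => hx i⟩
    · rintro ⟨h, -, x, -, hx⟩
      exact ⟨h, x, fun i => hx i (mem_univ i)⟩
  have h3 : (univ : Finset ι).Nonempty := by
    have : 0 < Fintype.card ι := by omega
    obtain ⟨i⟩ := Fintype.card_pos_iff.1 this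
    exact ⟨i, mem_univ i⟩
  rw [h2, key univ h3]
  congr 2
  apply Finset.sum_congr rfl
  intro ℓ _
  rw [Finset.inter_univ]

end Pool.Agent.GTO.H56
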