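import Pool.Agent.GTO.StmtsC
import Pool.Agent.Helper56_GTO.TOT

/-!
Squad GTO, row LNF: forms vanishing on a line.
-/

set_option autoImplicit false

namespace Pool.Agent.GTO.H56

open Finset Pool.Agent.GTO

/-! ### planes -/

theorem dt_smul_perp (u v x w : V) :
    dt u v x • w = ip w u • cr v x + ip w v • cr x u + ip w x • cr u v := by
  funext i
  fin_cases i <;> simp [dt, ip, cr] <;> ring

theorem dt_zero_of_perp {w u v x : V} (hw : w ≠ 0) (h1 : ip w u = 0) (h2 : ip w v = 0)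
    (h3 : ip w x = 0) : dt u v x = 0 := by
  have h := dt_smul_perp u v x w
  rw [h1, h2, h3, zero_smul, zero_smul, zero_smul, add_zero, add_zero] at h
  exact (smul_eq_zero.1 h).resolve_right hw

theorem cr_cr (q w : V) : ip q q • w = ip q w • q - cr q (cr q w) := by
  funext i
  fin_cases i <;> simp [ip, cr] <;> ring

theorem par_of_cr {q w : V} (hq : q ≠ 0) (h : cr q w = 0) : ∃ t : ℝ, w = t • q := by
  have h1 := cr_cr q w
  have h2 : cr q (cr q w) = 0 := by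
    rw [h]
    funext i
    fin_cases i <;> simp [cr]
  rw [h2, sub_zero] at h1
  refine ⟨ip q w / ip q q, ?_⟩
  have h3 := (ip_self_pos hq).ne'
  rw [div_eq_inv_mul, mul_smul, ← h1, smul_smul, inv_mul_cancel₀ h3, one_smul]

/-- coordinates in a plane -/
theorem plane_coord (bas : BasStmt) {w u v x : V} (hw : w ≠ 0) (hc : cr u v ≠ 0)
    (h1 : ip w u = 0) (h2 : ip w v = 0) (h3 : ip w x = 0) : ∃ s t : ℝ, x = s • u + t • v :=
  (bas.2.2.2.1 u v x hc).1 (dt_zero_of_perp hw h1 h2 h3)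

theorem cr_comb (u v : V) (s t s' t' : ℝ) :
    cr (s • u + t • v) (s' • u + t' • v) = (s * t' - t * s') • cr u v := by
  funext i
  fin_cases i <;> simp [cr] <;> ring

theorem cr_comb_l (u v : V) (s t : ℝ) : cr u (s • u + t • v) = t • cr u v := by
  funext i
  fin_cases i <;> simp [cr] <;> ring

theorem cr_comb_r (u v : V) (s t : ℝ) : cr v (s • u + t • v) = (-s) • cr u v := by
  funext i
  fin_cases i <;> simp [cr] <;> ring

/-! ### restrictions of forms -/

theorem cub_comb (c : Fin 10 → ℝ) (u v : V) (s t : ℝ) :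
    cub c (s • u + t • v) = s ^ 3 * cub c u + s ^ 2 * t * ip (grd c u) v +
      s * t ^ 2 * ip (grd c v) u + t ^ 3 * cub c v := by
  simp only [cub, ip, grd, Pi.add_apply, Pi.smul_apply, smul_eq_mul, Matrix.cons_val_zero,
    Matrix.cons_val_one, Matrix.cons_val]
  ring

/-- the polar form of a quadratic form -/
def pol (e : Fin 6 → ℝ) (u v : V) : ℝ := quad e (u + v) - quad e u - quad e v

theorem quad_comb (e : Fin 6 → ℝ) (u v : V) (s t : ℝ) :
    quad e (s • u + t • v) = s ^ 2 * quad e u + s * t * pol e u v + t ^ 2 * quad e v := by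
  simp only [quad, pol, Pi.add_apply, Pi.smul_apply, smul_eq_mul]
  ring

theorem cub_plane (bas : BasStmt) (c : Fin 10 → ℝ) (w : V) (p : Fin 4 → V) (hw : w ≠ 0)
    (h : ∀ i, ip w (p i) = 0 ∧ cub c (p i) = 0) (hp : ∀ i j, i ≠ j → cr (p i) (p j) ≠ 0) :
    ∀ x, ip w x = 0 → cub c x = 0 := by
  have h01 := hp 0 1 (by decide)
  obtain ⟨s₂, t₂, e₂⟩ := plane_coord bas hw h01 (h 0).1 (h 1).1 (h 2).1
  obtain ⟨s₃, t₃, e₃⟩ := plane_coord bas hw h01 (h 0).1 (h 1).1 (h 3).1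
  have k02 := hp 0 2 (by decide)
  have k12 := hp 1 2 (by decide)
  have k03 := hp 0 3 (by decide)
  have k13 := hp 1 3 (by decide)
  have k23 := hp 2 3 (by decide)
  rw [e₂, cr_comb_l] at k02
  rw [e₂, cr_comb_r] at k12
  rw [e₃, cr_comb_l] at k03
  rw [e₃, cr_comb_r] at k13
  rw [e₂, e₃, cr_comb] at k23
  have ht₂ : t₂ ≠ 0 := fun h0 => k02 (by rw [h0, zero_smul])
  have hs₂ : s₂ ≠ 0 := fun h0 => k12 (by rw [h0, neg_zero, zero_smul])
  have ht₃ : t₃ ≠ 0 := fun h0 => k03 (by rw [h0, zero_smul])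
  have hs₃ : s₃ ≠ 0 := fun h0 => k13 (by rw [h0, neg_zero, zero_smul])
  have hd : s₂ * t₃ - t₂ * s₃ ≠ 0 := fun h0 => k23 (by rw [h0, zero_smul])
  have q2 := (h 2).2
  have q3 := (h 3).2
  rw [e₂, cub_comb, (h 0).2, (h 1).2] at q2
  rw [e₃, cub_comb, (h 0).2, (h 1).2] at q3
  obtain ⟨B, hB⟩ : ∃ B, B = ip (grd c (p 0)) (p 1) := ⟨_, rfl⟩
  obtain ⟨C, hC⟩ : ∃ C, C = ip (grd c (p 1)) (p 0) := ⟨_, rfl⟩
  rw [← hB, ← hC] at q2 q3
  have r2 : s₂ * B + t₂ * C = 0 := by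
    have : s₂ * t₂ * (s₂ * B + t₂ * C) = 0 := by linear_combination q2
    exact (mul_eq_zero.1 this).resolve_left (mul_ne_zero hs₂ ht₂)
  have r3 : s₃ * B + t₃ * C = 0 := by
    have : s₃ * t₃ * (s₃ * B + t₃ * C) = 0 := by linear_combination q3
    exact (mul_eq_zero.1 this).resolve_left (mul_ne_zero hs₃ ht₃)
  have hB0 : B = 0 := by
    have : (s₂ * t₃ - t₂ * s₃) * B = 0 := by linear_combination t₃ * r2 - t₂ * r3
    exact (mul_eq_zero.1 this).resolve_left hd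
  have hC0 : C = 0 := by
    have : (s₂ * t₃ - t₂ * s₃) * C = 0 := by linear_combination s₂ * r3 - s₃ * r2
    exact (mul_eq_zero.1 this).resolve_left hd
  intro x hx
  obtain ⟨s, t, e⟩ := plane_coord bas hw h01 (h 0).1 (h 1).1 hx
  rw [e, cub_comb, (h 0).2, (h 1).2, ← hB, ← hC, hB0, hC0]
  ring

theorem quad_plane (bas : BasStmt) (c : Fin 6 → ℝ) (w : V) (p : Fin 3 → V) (hw : w ≠ 0)
    (h : ∀ i, ip w (p i) = 0 ∧ quad c (p i) = 0) (hp : ∀ i j, i ≠ j → cr (p i) (p j) ≠ 0) :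
    ∀ x, ip w x = 0 → quad c x = 0 := by
  have h01 := hp 0 1 (by decide)
  obtain ⟨s₂, t₂, e₂⟩ := plane_coord bas hw h01 (h 0).1 (h 1).1 (h 2).1
  have k02 := hp 0 2 (by decide)
  have k12 := hp 1 2 (by decide)
  rw [e₂, cr_comb_l] at k02
  rw [e₂, cr_comb_r] at k12
  have ht₂ : t₂ ≠ 0 := fun h0 => k02 (by rw [h0, zero_smul])
  have hs₂ : s₂ ≠ 0 := fun h0 => k12 (by rw [h0, neg_zero, zero_smul])
  have q2 := (h 2).2
  rw [e₂, quad_comb, (h 0).2, (h 1).2] at q2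
  have hB0 : pol c (p 0) (p 1) = 0 := by
    have : s₂ * t₂ * pol c (p 0) (p 1) = 0 := by linear_combination q2
    exact (mul_eq_zero.1 this).resolve_left (mul_ne_zero hs₂ ht₂)
  intro x hx
  obtain ⟨s, t, e⟩ := plane_coord bas hw h01 (h 0).1 (h 1).1 hx
  rw [e, quad_comb, (h 0).2, (h 1).2, hB0]
  ring

/-! ### division -/

theorem cub_div2 (c : Fin 10 → ℝ) (w : V) (hw : w 2 ≠ 0) (h : ∀ x, ip w x = 0 → cub c x = 0) :
    ∃ e : Fin 6 → ℝ, ∀ v, cub c v = ip w v * quad e v := by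
  obtain ⟨e5, he5⟩ : ∃ e5, e5 = c 9 / w 2 := ⟨_, rfl⟩
  obtain ⟨e4, he4⟩ : ∃ e4, e4 = (c 8 - w 1 * e5) / w 2 := ⟨_, rfl⟩
  obtain ⟨e2, he2⟩ : ∃ e2, e2 = (c 5 - w 0 * e5) / w 2 := ⟨_, rfl⟩
  obtain ⟨e3, he3⟩ : ∃ e3, e3 = (c 7 - w 1 * e4) / w 2 := ⟨_, rfl⟩
  obtain ⟨e1, he1⟩ : ∃ e1, e1 = (c 4 - w 0 * e4 - w 1 * e2) / w 2 := ⟨_, rfl⟩
  obtain ⟨e0, he0⟩ : ∃ e0, e0 = (c 2 - w 0 * e2) / w 2 := ⟨_, rfl⟩
  have k9 : c 9 = w 2 * e5 := by rw [he5]; field_simp
  have k8 : c 8 = w 1 * e5 + w 2 * e4 := by rw [he4]; field_simp; ring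
  have k5 : c 5 = w 0 * e5 + w 2 * e2 := by rw [he2]; field_simp; ring
  have k7 : c 7 = w 1 * e4 + w 2 * e3 := by rw [he3]; field_simp; ring
  have k4 : c 4 = w 0 * e4 + w 1 * e2 + w 2 * e1 := by rw [he1]; field_simp; ring
  have k2 : c 2 = w 0 * e2 + w 2 * e0 := by rw [he0]; field_simp; ring
  have key : ∀ x y : ℝ, (c 0 - w 0 * e0) * x ^ 3 + (c 1 - w 0 * e1 - w 1 * e0) * x ^ 2 * y +
      (c 3 - w 0 * e3 - w 1 * e1) * x * y ^ 2 + (c 6 - w 1 * e3) * y ^ 3 = 0 := by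
    intro x y
    have h1 : ip w ![x, y, -(w 0 * x + w 1 * y) / w 2] = 0 := by
      simp only [ip, Matrix.cons_val_zero, Matrix.cons_val_one, Matrix.cons_val]
      field_simp
      ring
    have h2 := h _ h1
    obtain ⟨z, hz⟩ : ∃ z, z = -(w 0 * x + w 1 * y) / w 2 := ⟨_, rfl⟩
    have hz' : w 2 * z = -(w 0 * x + w 1 * y) := by
      rw [hz]
      field_simp
    rw [← hz] at h2
    simp only [cub, Matrix.cons_val_zero, Matrix.cons_val_one, Matrix.cons_val] at h2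
    rw [k9, k8, k5, k7, k4, k2] at h2
    linear_combination h2 - (e0 * x ^ 2 + e1 * x * y + e2 * x * z + e3 * y ^ 2 + e4 * y * z +
      e5 * z ^ 2) * hz'
  have g0 := key 1 0
  have g3 := key 0 1
  have g1 := key 1 1
  have g2 := key 1 (-1)
  have r0 : c 0 = w 0 * e0 := by linarith
  have r6 : c 6 = w 1 * e3 := by linarith
  have r3 : c 3 = w 0 * e3 + w 1 * e1 := by linarith
  have r1 : c 1 = w 0 * e1 + w 1 * e0 := by linarith
  refine ⟨![e0, e1, e2, e3, e4, e5], fun v => ?_⟩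
  simp only [cub, quad, ip, Matrix.cons_val_zero, Matrix.cons_val_one, Matrix.cons_val]
  rw [k9, k8, k5, k7, k4, k2, r0, r6, r3, r1]
  ring

theorem quad_div2 (e : Fin 6 → ℝ) (w : V) (hw : w 2 ≠ 0) (h : ∀ x, ip w x = 0 → quad e x = 0) :
    ∃ m : V, ∀ v, quad e v = ip w v * ip m v := by
  obtain ⟨m2, hm2⟩ : ∃ m2, m2 = e 5 / w 2 := ⟨_, rfl⟩
  obtain ⟨m1, hm1⟩ : ∃ m1, m1 = (e 4 - w 1 * m2) / w 2 := ⟨_, rfl⟩
  obtain ⟨m0, hm0⟩ : ∃ m0, m0 = (e 2 - w 0 * m2) / w 2 := ⟨_, rfl⟩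
  have k5 : e 5 = w 2 * m2 := by rw [hm2]; field_simp
  have k4 : e 4 = w 1 * m2 + w 2 * m1 := by rw [hm1]; field_simp; ring
  have k2 : e 2 = w 0 * m2 + w 2 * m0 := by rw [hm0]; field_simp; ring
  have key : ∀ x y : ℝ, (e 0 - w 0 * m0) * x ^ 2 + (e 1 - w 0 * m1 - w 1 * m0) * x * y +
      (e 3 - w 1 * m1) * y ^ 2 = 0 := by
    intro x y
    have h1 : ip w ![x, y, -(w 0 * x + w 1 * y) / w 2] = 0 := by
      simp only [ip, Matrix.cons_val_zero, Matrix.cons_val_one, Matrix.cons_val]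
      field_simp
      ring
    have h2 := h _ h1
    obtain ⟨z, hz⟩ : ∃ z, z = -(w 0 * x + w 1 * y) / w 2 := ⟨_, rfl⟩
    have hz' : w 2 * z = -(w 0 * x + w 1 * y) := by
      rw [hz]
      field_simp
    rw [← hz] at h2
    simp only [quad, Matrix.cons_val_zero, Matrix.cons_val_one, Matrix.cons_val] at h2
    rw [k5, k4, k2] at h2
    linear_combination h2 - (m0 * x + m1 * y + m2 * z) * hz'
  have g0 := key 1 0
  have g3 := key 0 1
  have g1 := key 1 1
  have r0 : e 0 = w 0 * m0 := by linarith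
  have r3 : e 3 = w 1 * m1 := by linarith
  have r1 : e 1 = w 0 * m1 + w 1 * m0 := by linarith
  refine ⟨![m0, m1, m2], fun v => ?_⟩
  simp only [quad, ip, Matrix.cons_val_zero, Matrix.cons_val_one, Matrix.cons_val]
  rw [k5, k4, k2, r0, r3, r1]
  ring

theorem exists_ne {w : V} (hw : w ≠ 0) : w 0 ≠ 0 ∨ w 1 ≠ 0 ∨ w 2 ≠ 0 := by
  by_contra hcon
  push Not at hcon
  apply hw
  funext i
  fin_cases i
  · exact hcon.1
  · exact hcon.2.1
  · exact hcon.2.2

theorem cub_div (c : Fin 10 → ℝ) (w : V) (hw : w ≠ 0) (h : ∀ x, ip w x = 0 → cub c x = 0) :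
    ∃ e : Fin 6 → ℝ, ∀ v, cub c v = ip w v * quad e v := by
  rcases exists_ne hw with h0 | h0 | h0
  · -- exchange of the coordinates 0 and 2
    have hc : ∀ v : V, cub ![c 9, c 8, c 5, c 7, c 4, c 2, c 6, c 3, c 1, c 0]
        ![v 2, v 1, v 0] = cub c v := by
      intro v
      simp only [cub, Matrix.cons_val_zero, Matrix.cons_val_one, Matrix.cons_val]
      ring
    have hi : ∀ v : V, ip ![w 2, w 1, w 0] ![v 2, v 1, v 0] = ip w v := by
      intro v
      simp only [ip, Matrix.cons_val_zero, Matrix.cons_val_one, Matrix.cons_val]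
      ring
    have hv : ∀ v : V, v = ![(![v 2, v 1, v 0] : V) 2, (![v 2, v 1, v 0] : V) 1,
        (![v 2, v 1, v 0] : V) 0] := by
      intro v
      funext i
      fin_cases i <;> rfl
    obtain ⟨e, he⟩ := cub_div2 ![c 9, c 8, c 5, c 7, c 4, c 2, c 6, c 3, c 1, c 0]
      ![w 2, w 1, w 0] h0 (by
        intro x hx
        rw [hv x] at hx ⊢
        rw [hi] at hx
        rw [hc]
        exact h _ hx)
    refine ⟨![e 5, e 4, e 2, e 3, e 1, e 0], fun v => ?_⟩
    rw [← hc, he, hi]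
    congr 1
    simp only [quad, Matrix.cons_val_zero, Matrix.cons_val_one, Matrix.cons_val]
    ring
  · -- exchange of the coordinates 1 and 2
    have hc : ∀ v : V, cub ![c 0, c 2, c 1, c 5, c 4, c 3, c 9, c 8, c 7, c 6]
        ![v 0, v 2, v 1] = cub c v := by
      intro v
      simp only [cub, Matrix.cons_val_zero, Matrix.cons_val_one, Matrix.cons_val]
      ring
    have hi : ∀ v : V, ip ![w 0, w 2, w 1] ![v 0, v 2, v 1] = ip w v := by
      intro v
      simp only [ip, Matrix.cons_val_zero, Matrix.cons_val_one, Matrix.cons_val]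
      ring
    have hv : ∀ v : V, v = ![(![v 0, v 2, v 1] : V) 0, (![v 0, v 2, v 1] : V) 2,
        (![v 0, v 2, v 1] : V) 1] := by
      intro v
      funext i
      fin_cases i <;> rfl
    obtain ⟨e, he⟩ := cub_div2 ![c 0, c 2, c 1, c 5, c 4, c 3, c 9, c 8, c 7, c 6]
      ![w 0, w 2, w 1] h0 (by
        intro x hx
        rw [hv x] at hx ⊢
        rw [hi] at hx
        rw [hc]
        exact h _ hx)
    refine ⟨![e 0, e 2, e 1, e 5, e 4, e 3], fun v => ?_⟩
    rw [← hc, he, hi]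
    congr 1
    simp only [quad, Matrix.cons_val_zero, Matrix.cons_val_one, Matrix.cons_val]
    ring
  · exact cub_div2 c w h0 h

theorem quad_div (c : Fin 6 → ℝ) (w : V) (hw : w ≠ 0) (h : ∀ x, ip w x = 0 → quad c x = 0) :
    ∃ m : V, ∀ v, quad c v = ip w v * ip m v := by
  rcases exists_ne hw with h0 | h0 | h0
  · have hc : ∀ v : V, quad ![c 5, c 4, c 2, c 3, c 1, c 0] ![v 2, v 1, v 0] = quad c v := by
      intro v
      simp only [quad, Matrix.cons_val_zero, Matrix.cons_val_one, Matrix.cons_val]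
      ring
    have hi : ∀ w v : V, ip ![w 2, w 1, w 0] ![v 2, v 1, v 0] = ip w v := by
      intro w v
      simp only [ip, Matrix.cons_val_zero, Matrix.cons_val_one, Matrix.cons_val]
      ring
    have hv : ∀ v : V, v = ![(![v 2, v 1, v 0] : V) 2, (![v 2, v 1, v 0] : V) 1,
        (![v 2, v 1, v 0] : V) 0] := by
      intro v
      funext i
      fin_cases i <;> rfl
    obtain ⟨m, hm⟩ := quad_div2 ![c 5, c 4, c 2, c 3, c 1, c 0] ![w 2, w 1, w 0] h0 (by
        intro x hx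
        rw [hv x] at hx ⊢
        rw [hi] at hx
        rw [hc]
        exact h _ hx)
    refine ⟨![m 2, m 1, m 0], fun v => ?_⟩
    rw [← hc, hm, hi, ← hi ![m 2, m 1, m 0] v]
    congr 1
  · have hc : ∀ v : V, quad ![c 0, c 2, c 1, c 5, c 4, c 3] ![v 0, v 2, v 1] = quad c v := by
      intro v
      simp only [quad, Matrix.cons_val_zero, Matrix.cons_val_one, Matrix.cons_val]
      ring
    have hi : ∀ w v : V, ip ![w 0, w 2, w 1] ![v 0, v 2, v 1] = ip w v := by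
      intro w v
      simp only [ip, Matrix.cons_val_zero, Matrix.cons_val_one, Matrix.cons_val]
      ring
    have hv : ∀ v : V, v = ![(![v 0, v 2, v 1] : V) 0, (![v 0, v 2, v 1] : V) 2,
        (![v 0, v 2, v 1] : V) 1] := by
      intro v
      funext i
      fin_cases i <;> rfl
    obtain ⟨m, hm⟩ := quad_div2 ![c 0, c 2, c 1, c 5, c 4, c 3] ![w 0, w 2, w 1] h0 (by
        intro x hx
        rw [hv x] at hx ⊢
        rw [hi] at hx
        rw [hc]
        exact h _ hx)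
    refine ⟨![m 0, m 2, m 1], fun v => ?_⟩
    rw [← hc, hm, hi, ← hi ![m 0, m 2, m 1] v]
    congr 1
  · exact quad_div2 c w h0 h

theorem lin_div (m w : V) (p : Fin 2 → V) (hw : w ≠ 0)
    (h : ∀ i, ip w (p i) = 0 ∧ ip m (p i) = 0) (hc : cr (p 0) (p 1) ≠ 0) : ∃ t : ℝ, m = t • w := by
  have key : ∀ x u v : V, cr (cr u v) x = ip x u • v - ip x v • u := by
    intro x u v
    funext i
    fin_cases i <;> simp [ip, cr] <;> ring
  have h1 : cr (cr (p 0) (p 1)) w = 0 := by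
    rw [key, (h 0).1, (h 1).1, zero_smul, zero_smul, sub_zero]
  have h2 : cr (cr (p 0) (p 1)) m = 0 := by
    rw [key, (h 0).2, (h 1).2, zero_smul, zero_smul, sub_zero]
  obtain ⟨α, hα⟩ := par_of_cr hc h1
  obtain ⟨β, hβ⟩ := par_of_cr hc h2
  have hα0 : α ≠ 0 := by
    rintro rfl
    exact hw (by rw [hα, zero_smul])
  refine ⟨β / α, ?_⟩
  rw [hβ]
  conv_rhs => rw [hα]
  rw [smul_smul, div_mul_cancel₀ _ hα0]

theorem cub_zero (c : Fin 10 → ℝ) (h : ∀ v, cub c v = 0) : c = 0 := by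
  have a0 := h ![1, 0, 0]
  have a1 := h ![0, 1, 0]
  have a2 := h ![0, 0, 1]
  have a3 := h ![1, 1, 0]
  have a4 := h ![1, -1, 0]
  have a5 := h ![1, 0, 1]
  have a6 := h ![1, 0, -1]
  have a7 := h ![0, 1, 1]
  have a8 := h ![0, 1, -1]
  have a9 := h ![1, 1, 1]
  simp only [cub, Matrix.cons_val_zero, Matrix.cons_val_one, Matrix.cons_val] at a0 a1 a2 a3 a4 a5
  simp only [cub, Matrix.cons_val_zero, Matrix.cons_val_one, Matrix.cons_val] at a6 a7 a8 a9
  funext i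
  fin_cases i
  · change c 0 = 0; linarith
  · change c 1 = 0; linarith
  · change c 2 = 0; linarith
  · change c 3 = 0; linarith
  · change c 4 = 0; linarith
  · change c 5 = 0; linarith
  · change c 6 = 0; linarith
  · change c 7 = 0; linarith
  · change c 8 = 0; linarith
  · change c 9 = 0; linarith

theorem quad_zero (e : Fin 6 → ℝ) (h : ∀ v, quad e v = 0) : e = 0 := by
  have a0 := h ![1, 0, 0]
  have a1 := h ![0, 1, 0]
  have a2 := h ![0, 0, 1]
  have a3 := h ![1, 1, 0]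
  have a4 := h ![1, 0, 1]
  have a5 := h ![0, 1, 1]
  simp only [quad, Matrix.cons_val_zero, Matrix.cons_val_one, Matrix.cons_val] at a0 a1 a2 a3 a4 a5
  funext i
  fin_cases i
  · change e 0 = 0; linarith
  · change e 1 = 0; linarith
  · change e 2 = 0; linarith
  · change e 3 = 0; linarith
  · change e 4 = 0; linarith
  · change e 5 = 0; linarith

/-- LNF -/
theorem lnf (bas : BasStmt) : LnfStmt := by
  refine ⟨?_, ?_, ?_, cub_zero, quad_zero, ?_, ?_⟩
  · intro c w p hw h hp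
    exact cub_div c w hw (cub_plane bas c w p hw h hp)
  · intro c w p hw h hp
    exact quad_div c w hw (quad_plane bas c w p hw h hp)
  · intro m w p hw h hc
    exact lin_div m w p hw h hc
  · intro w e
    refine ⟨![w 0 * e 0, w 0 * e 1 + w 1 * e 0, w 0 * e 2 + w 2 * e 0, w 0 * e 3 + w 1 * e 1,
      w 0 * e 4 + w 1 * e 2 + w 2 * e 1, w 0 * e 5 + w 2 * e 2, w 1 * e 3,
      w 1 * e 4 + w 2 * e 3, w 1 * e 5 + w 2 * e 4, w 2 * e 5], fun v => ?_⟩
    simp only [cub, quad, ip, Matrix.cons_val_zero, Matrix.cons_val_one, Matrix.cons_val]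
    ring
  · intro w m
    refine ⟨![w 0 * m 0, w 0 * m 1 + w 1 * m 0, w 0 * m 2 + w 2 * m 0, w 1 * m 1,
      w 1 * m 2 + w 2 * m 1, w 2 * m 2], fun v => ?_⟩
    simp only [quad, ip, Matrix.cons_val_zero, Matrix.cons_val_one, Matrix.cons_val]
    ring

end Pool.Agent.GTO.H56
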