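import Pool.Agent.GTO.StmtsC
import Pool.Agent.Helper56_GTO.LNF

/-!
Squad GTO, row CHA: Chasles (Cayley-Bacharach) for two triples of lines.
-/

set_option autoImplicit false

namespace Pool.Agent.GTO.H56

open Finset Pool.Agent.GTO

theorem cr_cr_left (x u v : V) : cr (cr u v) x = ip x u • v - ip x v • u := by
  funext i
  fin_cases i <;> simp [ip, cr] <;> ring

theorem ip_comm' (u v : V) : ip u v = ip v u := by
  unfold ip
  ring

/-- two vectors orthogonal to the same two lines are parallel -/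
theorem par_perp {x y u v : V} (hxy : cr x y ≠ 0) (h1 : ip x u = 0) (h2 : ip y u = 0)
    (h3 : ip x v = 0) (h4 : ip y v = 0) : cr u v = 0 := by
  have k1 : cr (cr x y) u = 0 := by
    rw [cr_cr_left, ip_comm' u x, ip_comm' u y, h1, h2, zero_smul, zero_smul, sub_zero]
  have k2 : cr (cr x y) v = 0 := by
    rw [cr_cr_left, ip_comm' v x, ip_comm' v y, h3, h4, zero_smul, zero_smul, sub_zero]
  obtain ⟨α, hα⟩ := par_of_cr hxy k1
  obtain ⟨β, hβ⟩ := par_of_cr hxy k2
  rw [hα, hβ]
  funext i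
  fin_cases i <;> simp [cr] <;> ring

theorem cub_sub_smul (c k : Fin 10 → ℝ) (t : ℝ) (v : V) :
    cub (c - t • k) v = cub c v - t * cub k v := by
  simp only [cub, Pi.sub_apply, Pi.smul_apply, smul_eq_mul]
  ring

theorem left_ne_zero {u v : V} (h : cr u v ≠ 0) : u ≠ 0 := by
  rintro rfl
  apply h
  funext i
  fin_cases i <;> simp [cr]

/-- CHA -/
theorem cha (lnf : LnfStmt) : ChaStmt := by
  intro X Y P c hinc hXY hP hc
  obtain ⟨l1, l2, l3, -, -, l6, l7⟩ := lnf
  -- the product of the `Y`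
  obtain ⟨e0, he0⟩ := l7 (Y 1) (Y 2)
  obtain ⟨k, hk⟩ := l6 (Y 0) e0
  have hk' : ∀ v, cub k v = ip (Y 0) v * (ip (Y 1) v * ip (Y 2) v) := by
    intro v
    rw [hk, he0]
  have hkP : ∀ i j, cub k (P i j) = 0 := by
    intro i j
    rw [hk']
    have h := (hinc i j).2
    fin_cases j
    · change ip (Y 0) (P i 0) = 0 at h
      change ip (Y 0) (P i 0) * _ = 0
      rw [h, zero_mul]
    · change ip (Y 1) (P i 1) = 0 at h
      change _ * (ip (Y 1) (P i 1) * _) = 0
      rw [h, zero_mul, mul_zero]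
    · change ip (Y 2) (P i 2) = 0 at h
      change _ * (_ * ip (Y 2) (P i 2)) = 0
      rw [h, mul_zero, mul_zero]
  -- incidences which do not occur
  have hX : ∀ i i' j, i ≠ i' → ip (X i) (P i' j) ≠ 0 := by
    intro i i' j hii h0
    apply hP i j i' j (fun h => hii (congrArg Prod.fst h))
    exact par_perp (hXY i j) (hinc i j).1 (hinc i j).2 h0 (hinc i' j).2
  have hY : ∀ i j j', j ≠ j' → ip (Y j) (P i j') ≠ 0 := by
    intro i j j' hjj h0
    apply hP i j i j' (fun h => hjj (congrArg Prod.snd h))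
    exact par_perp (hXY i j) (hinc i j).1 (hinc i j).2 (hinc i j').1 h0
  -- the auxiliary point
  obtain ⟨t, ht⟩ : ∃ t, t = ip (Y 2) (P 0 0) / ip (Y 2) (P 0 1) := ⟨_, rfl⟩
  have y20 := hY 0 2 0 (by decide)
  have y21 := hY 0 2 1 (by decide)
  have y01 := hY 0 0 1 (by decide)
  have y10 := hY 0 1 0 (by decide)
  have ht0 : t ≠ 0 := by
    rw [ht]
    exact div_ne_zero y20 y21
  obtain ⟨q, hq⟩ : ∃ q, q = P 0 0 + t • P 0 1 := ⟨_, rfl⟩
  have hqX : ip (X 0) q = 0 := by
    rw [hq, ip_add_right, ip_smul_right, (hinc 0 0).1, (hinc 0 1).1]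
    ring
  have hq0 : ip (Y 0) q ≠ 0 := by
    rw [hq, ip_add_right, ip_smul_right, (hinc 0 0).2, zero_add]
    exact mul_ne_zero ht0 y01
  have hq1 : ip (Y 1) q ≠ 0 := by
    rw [hq, ip_add_right, ip_smul_right, (hinc 0 1).2, mul_zero, add_zero]
    exact y10
  have hq2 : ip (Y 2) q ≠ 0 := by
    rw [hq, ip_add_right, ip_smul_right, ht, div_mul_cancel₀ _ y21]
    intro h
    apply y20
    linarith
  have hkq : cub k q ≠ 0 := by
    rw [hk']
    exact mul_ne_zero hq0 (mul_ne_zero hq1 hq2)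
  have hqP : ∀ j, cr (P 0 j) q ≠ 0 := by
    intro j h0
    have hPj : P 0 j ≠ 0 := by
      have h1 := hP 0 j 1 j (by
        intro h
        have h2 : (0 : Fin 3) = 1 := congrArg Prod.fst h
        exact absurd h2 (by decide))
      exact left_ne_zero h1
    obtain ⟨s, hs⟩ := par_of_cr hPj h0
    apply hkq
    have h2 : cub k (s • P 0 j) = s ^ 3 * cub k (P 0 j) := by
      simp only [cub, Pi.smul_apply, smul_eq_mul]
      ring
    rw [hs, h2, hkP, mul_zero]
  -- the modified cubic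
  obtain ⟨r, hr⟩ : ∃ r, r = cub c q / cub k q := ⟨_, rfl⟩
  have hDq : cub (c - r • k) q = 0 := by
    rw [cub_sub_smul, hr, div_mul_cancel₀ _ hkq, sub_self]
  have hDP : ∀ i j, (i, j) ≠ ((2, 2) : Fin 3 × Fin 3) → cub (c - r • k) (P i j) = 0 := by
    intro i j hij
    rw [cub_sub_smul, hc i j hij, hkP, mul_zero, sub_zero]
  have hX0 : X 0 ≠ 0 := left_ne_zero (hXY 0 0)
  have hX1 : X 1 ≠ 0 := left_ne_zero (hXY 1 0)
  have hX2 : X 2 ≠ 0 := left_ne_zero (hXY 2 0)
  obtain ⟨e, he⟩ := l1 (c - r • k) (X 0) ![P 0 0, P 0 1, P 0 2, q] hX0 (by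
      intro i
      fin_cases i
      · exact ⟨(hinc 0 0).1, hDP 0 0 (by decide)⟩
      · exact ⟨(hinc 0 1).1, hDP 0 1 (by decide)⟩
      · exact ⟨(hinc 0 2).1, hDP 0 2 (by decide)⟩
      · exact ⟨hqX, hDq⟩) (by
      have hsw : ∀ u v : V, cr u v ≠ 0 → cr v u ≠ 0 := by
        intro u v h h0
        apply h
        have h1 : cr u v = - cr v u := by
          funext i
          fin_cases i <;> simp [cr] <;> ring
        rw [h1, h0, neg_zero]
      have g01 : cr (P 0 0) (P 0 1) ≠ 0 := hP 0 0 0 1 (by decide)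
      have g02 : cr (P 0 0) (P 0 2) ≠ 0 := hP 0 0 0 2 (by decide)
      have g12 : cr (P 0 1) (P 0 2) ≠ 0 := hP 0 1 0 2 (by decide)
      intro i j hij
      fin_cases i <;> fin_cases j
      · exact absurd rfl hij
      · exact g01
      · exact g02
      · exact hqP 0
      · exact hsw _ _ g01
      · exact absurd rfl hij
      · exact g12
      · exact hqP 1
      · exact hsw _ _ g02
      · exact hsw _ _ g12
      · exact absurd rfl hij
      · exact hqP 2
      · exact hsw _ _ (hqP 0)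
      · exact hsw _ _ (hqP 1)
      · exact hsw _ _ (hqP 2)
      · exact absurd rfl hij)
  have hq1P : ∀ j, quad e (P 1 j) = 0 := by
    intro j
    have h1 := hDP 1 j (by
      intro h
      have h2 : (1 : Fin 3) = 2 := congrArg Prod.fst h
      exact absurd h2 (by decide))
    rw [he] at h1
    exact (mul_eq_zero.1 h1).resolve_left (hX 0 1 j (by decide))
  obtain ⟨m, hm⟩ := l2 e (X 1) (P 1) hX1 (fun j => ⟨(hinc 1 j).1, hq1P j⟩) (by
      intro i j hij
      exact hP 1 i 1 j (fun h => hij (congrArg Prod.snd h)))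
  have hmP : ∀ j : Fin 3, j ≠ 2 → ip m (P 2 j) = 0 := by
    intro j hj
    have h1 := hDP 2 j (fun h => hj (congrArg Prod.snd h))
    rw [he, hm] at h1
    have h2 := (mul_eq_zero.1 h1).resolve_left (hX 0 2 j (by decide))
    exact (mul_eq_zero.1 h2).resolve_left (hX 1 2 j (by decide))
  obtain ⟨s, hs⟩ := l3 m (X 2) ![P 2 0, P 2 1] hX2 (by
      intro i
      fin_cases i
      · exact ⟨(hinc 2 0).1, hmP 0 (by decide)⟩
      · exact ⟨(hinc 2 1).1, hmP 1 (by decide)⟩) (hP 2 0 2 1 (by decide))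
  have hfin : cub (c - r • k) (P 2 2) = 0 := by
    rw [he, hm, hs, ip_smul, (hinc 2 2).1]
    ring
  rw [cub_sub_smul, hkP, mul_zero, sub_zero] at hfin
  exact hfin

end Pool.Agent.GTO.H56
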